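import Mathlib
import Pool.Agent.H26R2.Idem.Tree

set_option autoImplicit false

/-!
Fox calculus on the group algebra of a free group and abstract systems of Fox derivations.
-/

namespace Pool.Agent.H26R2.ZD

universe u v w x y

open MonoidAlgebra Pool.Agent.H26R2.Idem

section ideal

variable {K : Type u} [CommRing K] {G : Type v} [Group G]

/-- the powers of the augmentation ideal, with the whole algebra as power `0` -/
noncomputable def AP (K : Type u) [CommRing K] (G : Type v) [Group G] :
    ℕ → Submodule K (MonoidAlgebra K G)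
  | 0 => ⊤
  | (n + 1) => aug K G ^ (n + 1)

lemma aug_pow_mul_right (n : ℕ) (b x : MonoidAlgebra K G) (hx : x ∈ aug K G ^ (n + 1)) :
    x * b ∈ aug K G ^ (n + 1) := by
  rw [pow_succ] at hx ⊢
  induction hx using Submodule.mul_induction_on' with
  | mem_mul_mem m hm y hy =>
    rw [mul_assoc]
    refine Submodule.mul_mem_mul hm ?_
    rw [mem_aug] at hy ⊢
    rw [map_mul, hy, zero_mul]
  | add x _ y _ hx hy =>
    rw [add_mul]
    exact Submodule.add_mem _ hx hy

lemma AP_mul_left (n : ℕ) (b x : MonoidAlgebra K G) (hx : x ∈ AP K G n) : b * x ∈ AP K G n := by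
  cases n with
  | zero => exact Submodule.mem_top
  | succ n => exact aug_pow_mul_left n b x hx

lemma AP_mul_right (n : ℕ) (b x : MonoidAlgebra K G) (hx : x ∈ AP K G n) : x * b ∈ AP K G n := by
  cases n with
  | zero => exact Submodule.mem_top
  | succ n => exact aug_pow_mul_right n b x hx

lemma AP_one : AP K G 1 = aug K G := by
  show aug K G ^ (0 + 1) = _
  rw [zero_add, pow_one]

lemma aug_mul_AP (n : ℕ) (u x : MonoidAlgebra K G) (hu : u ∈ aug K G) (hx : x ∈ AP K G n) :
    u * x ∈ AP K G (n + 1) := by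
  cases n with
  | zero =>
    rw [zero_add, AP_one]
    rw [mem_aug] at hu ⊢
    rw [map_mul, hu, zero_mul]
  | succ n =>
    show u * x ∈ aug K G ^ (n + 1 + 1)
    rw [pow_succ' (aug K G) (n + 1)]
    exact Submodule.mul_mem_mul hu hx

lemma AP_succ_le (n : ℕ) : AP K G (n + 1) ≤ AP K G n := by
  cases n with
  | zero => exact le_top
  | succ n =>
    show aug K G ^ (n + 1 + 1) ≤ aug K G ^ (n + 1)
    rw [pow_succ' (aug K G) (n + 1)]
    rw [Submodule.mul_le]
    intro m _ x hx
    exact aug_pow_mul_left n m x hx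

lemma AP_le_aug (n : ℕ) : AP K G (n + 1) ≤ aug K G := by
  induction n with
  | zero => rw [zero_add, AP_one]
  | succ n ih => exact (AP_succ_le (n + 1)).trans ih

/-- An abstract system of Fox derivations on `K[G]`. -/
def FoxSys (K : Type u) [CommRing K] (G : Type v) [Group G] : Prop :=
  ∃ (J : Type v) (D : J → MonoidAlgebra K G →ₗ[K] MonoidAlgebra K G),
    (∀ j u v, u ∈ aug K G → D j (u * v) = D j u * v) ∧
    (∀ n u, u ∈ aug K G → (∀ j, D j u ∈ AP K G n) → u ∈ AP K G (n + 1))

end ideal

section fund

variable (K : Type u) [CommRing K] {α : Type v} [DecidableEq α]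

/-- fundamental formula of Fox calculus for group elements -/
lemma fund_of (g : FreeGroup α) : ∃ F : Finset α, ∀ F' : Finset α, F ⊆ F' →
    (single g 1 - 1 : MonoidAlgebra K (FreeGroup α)) =
      ∑ j ∈ F', (single (FreeGroup.of j) 1 - 1) * dd K j g := by
  induction g using FreeGroup.induction_on with
  | C1 => exact ⟨∅, fun F' _ => by simp [dd_one, one_def]⟩
  | of b =>
    refine ⟨{b}, fun F' hF => ?_⟩
    simp_rw [dd_of]
    simp only [mul_ite, mul_one, mul_zero]
    rw [Finset.sum_ite_eq, if_pos (hF (Finset.mem_singleton_self b))]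
  | inv_of b ih =>
    obtain ⟨F, hF⟩ := ih
    refine ⟨F, fun F' hF' => ?_⟩
    have h1 := hF F' hF'
    simp_rw [dd_inv, mul_neg, Finset.sum_neg_distrib, ← mul_assoc, ← Finset.sum_mul]
    rw [← h1, sub_mul, single_mul_single, one_mul]
    simp [one_def]
  | mul g h ihg ihh =>
    obtain ⟨F1, hF1⟩ := ihg
    obtain ⟨F2, hF2⟩ := ihh
    refine ⟨F1 ∪ F2, fun F' hF' => ?_⟩
    have h1 := hF1 F' (Finset.union_subset_left hF')
    have h2 := hF2 F' (Finset.union_subset_right hF')
    simp_rw [dd_mul, mul_add, Finset.sum_add_distrib, ← mul_assoc, ← Finset.sum_mul]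
    rw [← h1, ← h2, sub_mul, single_mul_single, one_mul, one_mul]
    abel

/-- fundamental formula of Fox calculus -/
lemma fund (a : MonoidAlgebra K (FreeGroup α)) : ∃ F : Finset α, ∀ F' : Finset α, F ⊆ F' →
    (a - (MonoidAlgebra.lift K K (FreeGroup α) (1 : FreeGroup α →* K) a) • 1 :
      MonoidAlgebra K (FreeGroup α)) =
      ∑ j ∈ F', (single (FreeGroup.of j) 1 - 1) * DD K j a := by
  induction a using MonoidAlgebra.induction_linear with
  | zero => exact ⟨∅, fun F' _ => by simp⟩
  | add f g hf hg =>
    obtain ⟨F1, hF1⟩ := hf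
    obtain ⟨F2, hF2⟩ := hg
    refine ⟨F1 ∪ F2, fun F' hF' => ?_⟩
    have h1 := hF1 F' (Finset.union_subset_left hF')
    have h2 := hF2 F' (Finset.union_subset_right hF')
    simp_rw [map_add, mul_add, Finset.sum_add_distrib]
    rw [← h1, ← h2, add_smul]
    abel
  | single x r =>
    obtain ⟨F, hF⟩ := fund_of K x
    refine ⟨F, fun F' hF' => ?_⟩
    have h1 := hF F' hF'
    simp_rw [DD_single, mul_smul_comm, ← Finset.smul_sum]
    rw [← h1, lift_single, MonoidHom.one_apply, smul_eq_mul, mul_one, smul_sub, smul_single,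
      smul_eq_mul, mul_one]

end fund

/-- free groups have Fox derivations -/
theorem foxSys_free (K : Type u) [CommRing K] (α : Type v) : FoxSys K (FreeGroup α) := by
  classical
  refine ⟨α, fun j => DD K j, ?_, ?_⟩
  · intro j u v hu
    rw [DD_mul, (mem_aug u).1 hu, zero_smul, add_zero]
  · intro n u hu h
    obtain ⟨F, hF⟩ := fund K u
    have h1 := hF F subset_rfl
    rw [(mem_aug u).1 hu, zero_smul, sub_zero] at h1
    rw [h1]
    exact Submodule.sum_mem _ (fun j _ => aug_mul_AP n _ _ (single_sub_one_mem _) (h j))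

section transport

variable (K : Type u) [CommRing K] {G : Type v} {H : Type v} [Group G] [Group H]

/-- the induced map of group algebras -/
noncomputable def mapA (f : G →* H) : MonoidAlgebra K G →ₐ[K] MonoidAlgebra K H :=
  MonoidAlgebra.lift K (MonoidAlgebra K H) G ((MonoidAlgebra.of K H).comp f)

lemma mapA_single (f : G →* H) (g : G) (r : K) : mapA K f (single g r) = single (f g) r := by
  unfold mapA
  rw [lift_single]
  simp

lemma mapA_aug (f : G →* H) (x : MonoidAlgebra K G) :
    MonoidAlgebra.lift K K H (1 : H →* K) (mapA K f x) =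
      MonoidAlgebra.lift K K G (1 : G →* K) x := by
  induction x using MonoidAlgebra.induction_linear with
  | zero => simp
  | add f g hf hg => rw [map_add, map_add, map_add, hf, hg]
  | single x r => rw [mapA_single, lift_single, lift_single]; rfl

lemma mapA_AP (f : G →* H) (n : ℕ) (x : MonoidAlgebra K G) (hx : x ∈ AP K G n) :
    mapA K f x ∈ AP K H n := by
  cases n with
  | zero => exact Submodule.mem_top
  | succ n =>
    have haug : (aug K G).map (mapA K f).toLinearMap ≤ aug K H := by
      rintro _ ⟨x, hx, rfl⟩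
      exact (mapA_aug K f x).trans hx
    have h1 : (aug K G ^ (n + 1)).map (mapA K f).toLinearMap ≤ aug K H ^ (n + 1) := by
      rw [Submodule.map_pow]
      exact pow_le_pow_left' haug _
    exact h1 ⟨x, hx, rfl⟩

lemma mapA_mapA (f : G →* H) (g : H →* G) (hfg : ∀ x, g (f x) = x) (x : MonoidAlgebra K G) :
    mapA K g (mapA K f x) = x := by
  induction x using MonoidAlgebra.induction_linear with
  | zero => simp
  | add f g hf hg => rw [map_add, map_add, hf, hg]
  | single x r => rw [mapA_single, mapA_single, hfg]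

/-- transport of Fox derivations along isomorphisms -/
theorem foxSys_equiv (e : G ≃* H) (h : FoxSys K H) : FoxSys K G := by
  obtain ⟨J, D, h1, h2⟩ := h
  have r1 : ∀ x : MonoidAlgebra K G, mapA K e.symm.toMonoidHom (mapA K e.toMonoidHom x) = x :=
    mapA_mapA K e.toMonoidHom e.symm.toMonoidHom (fun x => e.symm_apply_apply x)
  have r2 : ∀ x : MonoidAlgebra K H, mapA K e.toMonoidHom (mapA K e.symm.toMonoidHom x) = x :=
    mapA_mapA K e.symm.toMonoidHom e.toMonoidHom (fun x => e.apply_symm_apply x)
  refine ⟨J, fun j => (mapA K e.symm.toMonoidHom).toLinearMap ∘ₗ D j ∘ₗ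
    (mapA K e.toMonoidHom).toLinearMap, ?_, ?_⟩
  · intro j u v hu
    show mapA K e.symm.toMonoidHom (D j (mapA K e.toMonoidHom (u * v))) =
      mapA K e.symm.toMonoidHom (D j (mapA K e.toMonoidHom u)) * v
    have hu' : mapA K e.toMonoidHom u ∈ aug K H := (mapA_aug K e.toMonoidHom u).trans hu
    rw [map_mul, h1 j _ _ hu', map_mul, r1]
  · intro n u hu h
    rw [← r1 u]
    apply mapA_AP
    apply h2 n _ ((mapA_aug K e.toMonoidHom u).trans hu)
    intro j
    have h3 := mapA_AP K e.toMonoidHom n _ (h j)
    have h4 : mapA K e.toMonoidHom (mapA K e.symm.toMonoidHom (D j (mapA K e.toMonoidHom u))) ∈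
      AP K H n := h3
    rwa [r2] at h4

end transport

theorem foxSys_isFree (K : Type u) [CommRing K] (G : Type v) [Group G] [IsFreeGroup G] :
    FoxSys K G :=
  foxSys_equiv K (IsFreeGroup.toFreeGroup G) (foxSys_free K _)

end Pool.Agent.H26R2.ZD
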