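import Mathlib
import Pool.Agent.H26R2.ZD.Fox

set_option autoImplicit false

/-!
Main theorem: if `N` is a normal subgroup of `G` with a system of Fox derivations and residually
nilpotent augmentation ideal, and `K[G/N]` is a domain, then `K[G]` is a domain.
-/

namespace Pool.Agent.H26R2.ZD

universe u v w x y

open MonoidAlgebra Pool.Agent.H26R2.Idem

section comp

variable {K : Type u} [CommRing K] {G : Type v} [Group G] (N : Subgroup G)

/-- the inclusion `K[N] → K[G]` -/
noncomputable def io : MonoidAlgebra K N →ₐ[K] MonoidAlgebra K G :=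
  MonoidAlgebra.lift K (MonoidAlgebra K G) N ((MonoidAlgebra.of K G).comp N.subtype)

lemma io_single (n : N) (r : K) : io N (single n r) = single (n : G) r := by
  unfold io
  rw [lift_single]
  simp

lemma cp_single_smul (g : G) (m : N) (r : K) (x : MonoidAlgebra K G) :
    cp N g (single (m : G) r * x) = single m r * cp N g x := by
  have e1 : (single (m : G) r : MonoidAlgebra K G) = r • single (m : G) 1 := by
    rw [smul_single, smul_eq_mul, mul_one]
  have e2 : (single m r : MonoidAlgebra K N) = r • single m 1 := by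
    rw [smul_single, smul_eq_mul, mul_one]
  rw [e1, e2, smul_mul_assoc, map_smul, cp_single_left, smul_mul_assoc]

lemma cp_io (g : G) (u : MonoidAlgebra K N) (x : MonoidAlgebra K G) :
    cp N g (io N u * x) = u * cp N g x := by
  induction u using MonoidAlgebra.induction_linear with
  | zero => simp
  | add f g hf hg => rw [map_add, add_mul, map_add, hf, hg, add_mul]
  | single m r => rw [io_single, cp_single_smul]

lemma cp_self (g : G) : cp N g (single g 1 : MonoidAlgebra K G) = 1 := by
  classical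
  ext n
  rw [cp_coeff, coeff_single, one_def, coeff_single, Finsupp.single_apply, Finsupp.single_apply]
  congr 1
  apply propext
  constructor
  · intro h
    have : (n : G) = 1 := by simpa using h.symm
    exact (Subtype.ext this).symm
  · rintro rfl
    simp

lemma cp_other (g h : G) (r : K) (hgh : h * g⁻¹ ∉ N) :
    cp N g (single h r : MonoidAlgebra K G) = 0 := by
  classical
  ext n
  rw [cp_coeff, coeff_single, Finsupp.single_apply, if_neg]
  · rfl
  · intro hh
    apply hgh
    rw [hh]
    simp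

lemma cp_mul_left (g : G) (m : N) (x : MonoidAlgebra K G) :
    cp N ((m : G) * g) x = cp N g x * single m⁻¹ 1 := by
  ext n
  rw [cp_coeff, coeff_mul_single', cp_coeff]
  simp [mul_assoc]

end comp

section main

variable {K : Type u} [CommRing K] {G : Type v} [Group G] (N : Subgroup G)

/-- the filtration -/
def Fil (K : Type u) [CommRing K] {G : Type v} [Group G] (N : Subgroup G) (n : ℕ) :
    Submodule K (MonoidAlgebra K G) where
  carrier := {a | ∀ g, cp N g a ∈ AP K N n}
  add_mem' := by
    intro a b ha hb g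
    rw [map_add]
    exact Submodule.add_mem _ (ha g) (hb g)
  zero_mem' := by
    intro g
    rw [map_zero]
    exact Submodule.zero_mem _
  smul_mem' := by
    intro r a ha g
    rw [map_smul]
    exact Submodule.smul_mem _ _ (ha g)

lemma mem_Fil (n : ℕ) (a : MonoidAlgebra K G) :
    a ∈ Fil K N n ↔ ∀ g, cp N g a ∈ AP K N n := Iff.rfl

lemma Fil_zero (a : MonoidAlgebra K G) : a ∈ Fil K N 0 := fun _ => Submodule.mem_top

lemma Fil_succ_le (n : ℕ) : Fil K N (n + 1) ≤ Fil K N n := fun _ ha g => AP_succ_le n (ha g)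

variable [N.Normal]

/-- the chosen representative of a coset -/
noncomputable def ot (q : G ⧸ N) : G := Quotient.out q

lemma ot_mk (q : G ⧸ N) : ((ot N q : G) : G ⧸ N) = q := Quotient.out_eq q

lemma nu_mem (g : G) : g * (ot N (g : G ⧸ N))⁻¹ ∈ N := by
  have h1 : ((ot N (g : G ⧸ N) : G) : G ⧸ N) = (g : G ⧸ N) := ot_mk N _
  have h2 : (ot N (g : G ⧸ N))⁻¹ * g ∈ N := QuotientGroup.eq.1 h1
  have h3 := ‹N.Normal›.conj_mem _ h2 (ot N (g : G ⧸ N))
  have h4 : ot N (g : G ⧸ N) * ((ot N (g : G ⧸ N))⁻¹ * g) * (ot N (g : G ⧸ N))⁻¹ =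
    g * (ot N (g : G ⧸ N))⁻¹ := by group
  rwa [h4] at h3

/-- the component in `N` -/
noncomputable def nu (g : G) : N := ⟨g * (ot N (g : G ⧸ N))⁻¹, nu_mem N g⟩

lemma nu_mul (g : G) : (nu N g : G) * ot N (g : G ⧸ N) = g := by
  unfold nu
  simp

lemma mk_mul_ot (n : N) (q : G ⧸ N) : (((n : G) * ot N q : G) : G ⧸ N) = q := by
  rw [QuotientGroup.mk_mul, ot_mk]
  have : ((n : G) : G ⧸ N) = 1 := (QuotientGroup.eq_one_iff _).2 n.2
  rw [this, one_mul]

lemma nu_mul_ot (n : N) (q : G ⧸ N) : nu N ((n : G) * ot N q) = n := by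
  apply Subtype.ext
  show (n : G) * ot N q * (ot N (((n : G) * ot N q : G) : G ⧸ N))⁻¹ = n
  rw [mk_mul_ot]
  simp

/-- the extension of a linear map `K[N] → K[N]` to `K[G]` -/
noncomputable def DR (D : MonoidAlgebra K N →ₗ[K] MonoidAlgebra K N) :
    MonoidAlgebra K G →ₗ[K] MonoidAlgebra K G :=
  (Finsupp.linearCombination K (fun g : G => io N (D (single (nu N g) 1)) *
    single (ot N (g : G ⧸ N)) 1)).comp (coeffLinearEquiv K).toLinearMap

lemma DR_single (D : MonoidAlgebra K N →ₗ[K] MonoidAlgebra K N) (g : G) (r : K) :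
    DR N D (single g r) = r • (io N (D (single (nu N g) 1)) * single (ot N (g : G ⧸ N)) 1) := by
  show Finsupp.linearCombination K _ (Finsupp.single g r) = _
  rw [Finsupp.linearCombination_single]

lemma DR_io_ot (D : MonoidAlgebra K N →ₗ[K] MonoidAlgebra K N) (x : MonoidAlgebra K N)
    (q : G ⧸ N) : DR N D (io N x * single (ot N q) 1) = io N (D x) * single (ot N q) 1 := by
  induction x using MonoidAlgebra.induction_linear with
  | zero => simp
  | add f g hf hg => rw [map_add, add_mul, map_add, hf, hg, map_add, map_add, add_mul]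
  | single n r =>
    rw [io_single, single_mul_single, mul_one, DR_single, nu_mul_ot, mk_mul_ot]
    have : (single n r : MonoidAlgebra K N) = r • single n 1 := by
      rw [smul_single, smul_eq_mul, mul_one]
    rw [this, map_smul, map_smul, smul_mul_assoc]

lemma single_eq (g : G) (r : K) : (single g r : MonoidAlgebra K G) =
    r • (io N (single (nu N g) 1) * single (ot N (g : G ⧸ N)) 1) := by
  rw [io_single, single_mul_single, nu_mul, mul_one, smul_single, smul_eq_mul, mul_one]

lemma DR_io_mul (D : MonoidAlgebra K N →ₗ[K] MonoidAlgebra K N)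
    (hD : ∀ u v, u ∈ aug K N → D (u * v) = D u * v) (u : MonoidAlgebra K N) (hu : u ∈ aug K N)
    (y : MonoidAlgebra K G) : DR N D (io N u * y) = io N (D u) * y := by
  induction y using MonoidAlgebra.induction_linear with
  | zero => simp
  | add f g hf hg => rw [mul_add, map_add, hf, hg, mul_add]
  | single g r =>
    rw [single_eq N g r, mul_smul_comm, map_smul, mul_smul_comm, ← mul_assoc, ← map_mul, DR_io_ot,
      hD _ _ hu, map_mul, mul_assoc]

lemma cp_ot_ot (q : G ⧸ N) : cp N (ot N q) (single (ot N q) 1 : MonoidAlgebra K G) = 1 :=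
  cp_self N _

lemma cp_ot_ne (q q' : G ⧸ N) (h : q ≠ q') :
    cp N (ot N q) (single (ot N q') 1 : MonoidAlgebra K G) = 0 := by
  apply cp_other
  intro hmem
  apply h
  have h1 : ((ot N q' * (ot N q)⁻¹ : G) : G ⧸ N) = 1 := (QuotientGroup.eq_one_iff _).2 hmem
  rw [QuotientGroup.mk_mul, QuotientGroup.mk_inv, ot_mk, ot_mk, mul_inv_eq_one] at h1
  exact h1.symm

lemma cp_DR (D : MonoidAlgebra K N →ₗ[K] MonoidAlgebra K N) (q : G ⧸ N)
    (a : MonoidAlgebra K G) : cp N (ot N q) (DR N D a) = D (cp N (ot N q) a) := by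
  induction a using MonoidAlgebra.induction_linear with
  | zero => simp
  | add f g hf hg => rw [map_add, map_add, hf, hg, map_add, map_add]
  | single g r =>
    rw [single_eq N g r, map_smul, map_smul, map_smul, map_smul, DR_io_ot, cp_io, cp_io]
    by_cases h : q = (g : G ⧸ N)
    · subst h
      rw [cp_ot_ot, mul_one, mul_one]
    · rw [cp_ot_ne N _ _ h, mul_zero, mul_zero, map_zero]

lemma exists_ot (n : ℕ) (a : MonoidAlgebra K G)
    (h : ∀ q, cp N (ot N q) a ∈ AP K N n) : a ∈ Fil K N n := by
  intro g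
  have h1 := nu_mul N g
  rw [← h1, cp_mul_left]
  exact AP_mul_right n _ _ (h _)

lemma Fil_one (a : MonoidAlgebra K G) (ha : mapDomainRingHom K (QuotientGroup.mk' N) a = 0) :
    a ∈ Fil K N 1 := by
  intro g
  have := JJ_zero N a ha g
  rwa [zero_add, pow_one, ← AP_one] at this

lemma coeff_pi (a : MonoidAlgebra K G) (q : G ⧸ N) :
    (mapDomainRingHom K (QuotientGroup.mk' N) a).coeff q =
      MonoidAlgebra.lift K K N (1 : N →* K) (cp N (ot N q) a) := by
  classical
  induction a using MonoidAlgebra.induction_linear with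
  | zero => simp
  | add f g hf hg => rw [map_add, coeff_add, Finsupp.add_apply, hf, hg, map_add, map_add]
  | single g r =>
    have e1 : mapDomainRingHom K (QuotientGroup.mk' N) (single g r) =
        single (g : G ⧸ N) r := by simp
    rw [e1, coeff_single, Finsupp.single_apply, single_eq N g r, map_smul, cp_io]
    by_cases h : q = (g : G ⧸ N)
    · rw [if_pos h.symm]
      subst h
      rw [cp_ot_ot, mul_one, map_smul, lift_single, MonoidHom.one_apply, smul_eq_mul, smul_eq_mul,
        mul_one, mul_one]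
    · rw [if_neg (Ne.symm h), cp_ot_ne N _ _ h, mul_zero, smul_zero, map_zero]

lemma pi_eq_zero (a : MonoidAlgebra K G) (ha : a ∈ Fil K N 1) :
    mapDomainRingHom K (QuotientGroup.mk' N) a = 0 := by
  ext q
  rw [coeff_pi]
  have h1 := ha (ot N q)
  rw [AP_one, mem_aug] at h1
  rw [h1]
  rfl

/-- right linearity of `DR` on the first step of the filtration -/
lemma DR_mul (D : MonoidAlgebra K N →ₗ[K] MonoidAlgebra K N)
    (hD : ∀ u v, u ∈ aug K N → D (u * v) = D u * v) (a b : MonoidAlgebra K G)
    (ha : a ∈ Fil K N 1) : DR N D (a * b) = DR N D a * b := by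
  have h := ker_span N a (pi_eq_zero N a ha)
  clear ha
  induction h using Submodule.span_induction with
  | mem x hx =>
    obtain ⟨m, h, rfl⟩ := hx
    have e : (single (m : G) 1 - 1 : MonoidAlgebra K G) = io N (single m 1 - 1) := by
      rw [map_sub, io_single, map_one]
    rw [e, mul_assoc, DR_io_mul N D hD _ (single_sub_one_mem m),
      DR_io_mul N D hD _ (single_sub_one_mem m), mul_assoc]
  | zero => simp
  | add x y _ _ hx hy => rw [add_mul, map_add, hx, hy, map_add, add_mul]
  | smul r x _ hx => rw [smul_mul_assoc, map_smul, hx, map_smul, smul_mul_assoc]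

/-- the right component -/
noncomputable def cr (g : G) (x : MonoidAlgebra K G) : MonoidAlgebra K N :=
  cjL N g⁻¹ (cp N g x)

lemma cj_coeff (h : G) (y : MonoidAlgebra K N) (n : N) :
    (cjL N h y).coeff n = y.coeff (MulAut.conjNormal h⁻¹ n) := by
  rw [cjL_apply]
  induction y using MonoidAlgebra.induction_linear with
  | zero => simp
  | add f g hf hg => rw [map_add, coeff_add, coeff_add, Finsupp.add_apply, Finsupp.add_apply,
      hf, hg]
  | single m s =>
    classical
    rw [cj_single, coeff_single, coeff_single, Finsupp.single_apply, Finsupp.single_apply]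
    congr 1
    apply propext
    constructor
    · rintro rfl
      apply Subtype.ext
      simp [MulAut.conjNormal_apply, mul_assoc]
    · rintro rfl
      apply Subtype.ext
      simp [MulAut.conjNormal_apply, mul_assoc]

lemma cr_coeff (g : G) (x : MonoidAlgebra K G) (n : N) :
    (cr N g x).coeff n = x.coeff (g * n) := by
  unfold cr
  rw [cj_coeff, cp_coeff]
  simp [MulAut.conjNormal_apply]

lemma cr_add (g : G) (x y : MonoidAlgebra K G) : cr N g (x + y) = cr N g x + cr N g y := by
  unfold cr
  rw [map_add, map_add]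

lemma cr_smul (g : G) (r : K) (x : MonoidAlgebra K G) : cr N g (r • x) = r • cr N g x := by
  unfold cr
  rw [map_smul, map_smul]

lemma cr_single_mul (g h : G) (x : MonoidAlgebra K G) :
    cr N g (single h 1 * x) = cr N (h⁻¹ * g) x := by
  ext n
  rw [cr_coeff, cr_coeff, coeff_single_mul', one_mul, mul_assoc]

lemma cr_mul (g : G) (m : N) (x : MonoidAlgebra K G) :
    cr N (g * m) x = single m⁻¹ 1 * cr N g x := by
  ext n
  rw [cr_coeff, coeff_single_mul', cr_coeff]
  simp [mul_assoc]

lemma cjL_AP (h : G) (n : ℕ) (x : MonoidAlgebra K N) (hx : x ∈ AP K N n) :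
    cjL N h x ∈ AP K N n := by
  cases n with
  | zero => exact Submodule.mem_top
  | succ n => exact cjL_pow N h n hx

lemma cr_AP (g : G) (n : ℕ) (x : MonoidAlgebra K G) (hx : x ∈ Fil K N n) :
    cr N g x ∈ AP K N n := cjL_AP N _ n _ (hx g)

lemma cr_AP' (g : G) (n : ℕ) (x : MonoidAlgebra K G) (hx : cr N g x ∈ AP K N n) :
    cp N g x ∈ AP K N n := by
  have h1 := cjL_AP N g n _ hx
  have h2 : cjL N g (cr N g x) = cp N g x := by
    ext m
    rw [cj_coeff, cr_coeff, cp_coeff]
    simp [MulAut.conjNormal_apply, mul_assoc]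
  rwa [h2] at h1

/-- the map `K[G] → K[G/N]` of a functional -/
noncomputable def Lam (l : MonoidAlgebra K N →ₗ[K] K) :
    MonoidAlgebra K G →ₗ[K] MonoidAlgebra K (G ⧸ N) :=
  (Finsupp.linearCombination K (fun g : G => (single (g : G ⧸ N)
    (l (cr N (ot N (g : G ⧸ N)) (single g 1))) : MonoidAlgebra K (G ⧸ N)))).comp
    (coeffLinearEquiv K).toLinearMap

lemma Lam_single (l : MonoidAlgebra K N →ₗ[K] K) (g : G) (r : K) :
    Lam N l (single g r) = r • single (g : G ⧸ N) (l (cr N (ot N (g : G ⧸ N)) (single g 1))) := by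
  show Finsupp.linearCombination K _ (Finsupp.single g r) = _
  rw [Finsupp.linearCombination_single]

lemma cr_other (g h : G) (r : K) (hgh : (g : G ⧸ N) ≠ (h : G ⧸ N)) :
    cr N g (single h r : MonoidAlgebra K G) = 0 := by
  classical
  ext n
  rw [cr_coeff, coeff_single, Finsupp.single_apply, if_neg]
  · rfl
  · rintro rfl
    apply hgh
    rw [QuotientGroup.eq]
    simp

lemma Lam_coeff (l : MonoidAlgebra K N →ₗ[K] K) (a : MonoidAlgebra K G) (q : G ⧸ N) :
    (Lam N l a).coeff q = l (cr N (ot N q) a) := by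
  classical
  induction a using MonoidAlgebra.induction_linear with
  | zero =>
    rw [map_zero]
    have : cr N (ot N q) (0 : MonoidAlgebra K G) = 0 := by
      unfold cr; rw [map_zero, map_zero]
    rw [this, map_zero]
    rfl
  | add f g hf hg => rw [map_add, coeff_add, Finsupp.add_apply, hf, hg, cr_add, map_add]
  | single g r =>
    rw [Lam_single, coeff_smul, Finsupp.smul_apply, coeff_single, Finsupp.single_apply]
    by_cases h : (g : G ⧸ N) = q
    · rw [if_pos h]
      subst h
      have : (single g r : MonoidAlgebra K G) = r • single g 1 := by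
        rw [smul_single, smul_eq_mul, mul_one]
      rw [this, cr_smul, map_smul]
    · rw [if_neg h, smul_zero, cr_other N _ _ _ (by rw [ot_mk]; exact Ne.symm h), map_zero]

lemma Lam_coeff' (n : ℕ) (l : MonoidAlgebra K N →ₗ[K] K) (hl : ∀ x ∈ AP K N (n + 1), l x = 0)
    (a : MonoidAlgebra K G) (ha : a ∈ Fil K N n) (g : G) :
    l (cr N g a) = (Lam N l a).coeff (g : G ⧸ N) := by
  rw [Lam_coeff]
  have h1 : ((ot N (g : G ⧸ N) : G) : G ⧸ N) = (g : G ⧸ N) := ot_mk N _
  have h2 : (ot N (g : G ⧸ N))⁻¹ * g ∈ N := QuotientGroup.eq.1 h1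
  have h3 : g = ot N (g : G ⧸ N) * ((⟨_, h2⟩ : N) : G) := by simp
  conv_lhs => rw [h3]
  rw [cr_mul, ← sub_eq_zero, ← map_sub]
  apply hl
  have h4 : single (⟨(ot N (g : G ⧸ N))⁻¹ * g, h2⟩ : N)⁻¹ (1 : K) *
      cr N (ot N (g : G ⧸ N)) a - cr N (ot N (g : G ⧸ N)) a =
      (single (⟨(ot N (g : G ⧸ N))⁻¹ * g, h2⟩ : N)⁻¹ (1 : K) - 1) *
      cr N (ot N (g : G ⧸ N)) a := by rw [sub_mul, one_mul]
  rw [h4]
  exact aug_mul_AP n _ _ (single_sub_one_mem _) (cr_AP N _ n a ha)

lemma Lam_mul (n : ℕ) (l : MonoidAlgebra K N →ₗ[K] K) (hl : ∀ x ∈ AP K N (n + 1), l x = 0)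
    (a b : MonoidAlgebra K G) (hb : b ∈ Fil K N n) :
    Lam N l (a * b) = mapDomainRingHom K (QuotientGroup.mk' N) a * Lam N l b := by
  induction a using MonoidAlgebra.induction_linear with
  | zero => simp
  | add f g hf hg => rw [add_mul, map_add, hf, hg, map_add, add_mul]
  | single h r =>
    have e1 : mapDomainRingHom K (QuotientGroup.mk' N) (single h r) =
        single (h : G ⧸ N) r := by simp
    have e2 : (single h r : MonoidAlgebra K G) = r • single h 1 := by
      rw [smul_single, smul_eq_mul, mul_one]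
    ext q
    rw [e1, coeff_single_mul', e2, smul_mul_assoc, map_smul, coeff_smul, Finsupp.smul_apply,
      Lam_coeff, cr_single_mul, Lam_coeff' N n l hl b hb, QuotientGroup.mk_mul,
      QuotientGroup.mk_inv, ot_mk, smul_eq_mul]

end main

section thm

variable {K : Type u} [Field K] {G : Type v} [Group G] (N : Subgroup G) [N.Normal]

/-- the base case -/
lemma base_case [NoZeroDivisors (MonoidAlgebra K (G ⧸ N))] (n : ℕ) (a b : MonoidAlgebra K G)
    (ha : a ∉ Fil K N 1) (hb : b ∈ Fil K N n) (hb' : b ∉ Fil K N (n + 1)) :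
    a * b ∉ Fil K N (n + 1) := by
  intro hab
  have h1 : mapDomainRingHom K (QuotientGroup.mk' N) a ≠ 0 := fun h => ha (Fil_one N a h)
  rw [mem_Fil] at hb'
  push Not at hb'
  obtain ⟨g, hg⟩ := hb'
  have hg2 : cr N g b ∉ AP K N (n + 1) := fun h => hg (cr_AP' N g _ b h)
  obtain ⟨l, hl1, hl2⟩ := Submodule.exists_le_ker_of_notMem hg2
  have hl : ∀ x ∈ AP K N (n + 1), l x = 0 := fun x hx => hl2 hx
  have h2 : Lam N l b ≠ 0 := by
    intro h0
    apply hl1
    rw [Lam_coeff' N n l hl b hb, h0]
    rfl
  have h3 : Lam N l (a * b) = 0 := by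
    ext q
    rw [Lam_coeff, hl _ (cr_AP N _ _ _ hab)]
    rfl
  rw [Lam_mul N n l hl a b hb] at h3
  exact mul_ne_zero h1 h2 h3

/-- the degrees of the leading terms add up -/
lemma main_step [NoZeroDivisors (MonoidAlgebra K (G ⧸ N))] (hF : FoxSys K N) (m : ℕ) :
    ∀ (n : ℕ) (a b : MonoidAlgebra K G), a ∈ Fil K N m → a ∉ Fil K N (m + 1) →
      b ∈ Fil K N n → b ∉ Fil K N (n + 1) → a * b ∉ Fil K N (m + n + 1) := by
  obtain ⟨J, D, hD1, hD2⟩ := hF
  induction m with
  | zero =>
    intro n a b _ ha hb hb' hab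
    rw [zero_add] at ha hab
    exact base_case N n a b ha hb hb' hab
  | succ m ih =>
    intro n a b ha ha' hb hb' hab
    have hle : ∀ k, Fil K N (k + 1) ≤ Fil K N 1 := by
      intro k
      induction k with
      | zero => exact le_rfl
      | succ k ihk => exact (Fil_succ_le N (k + 1)).trans ihk
    have ha1 : a ∈ Fil K N 1 := hle m ha
    have h1 : ∃ q, cp N (ot N q) a ∉ AP K N (m + 1 + 1) := by
      by_contra hcon
      push Not at hcon
      exact ha' (exists_ot N _ a hcon)
    obtain ⟨q, hq⟩ := h1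
    have haug : ∀ q, cp N (ot N q) a ∈ aug K N := fun q => AP_le_aug m (ha _)
    have h2 : ∃ j, D j (cp N (ot N q) a) ∉ AP K N (m + 1) := by
      by_contra hcon
      push Not at hcon
      exact hq (hD2 (m + 1) _ (haug q) hcon)
    obtain ⟨j, hj⟩ := h2
    have hdown : ∀ (k : ℕ) (x : MonoidAlgebra K N), x ∈ AP K N (k + 1) → D j x ∈ AP K N k := by
      intro k x hx
      cases k with
      | zero => exact Submodule.mem_top
      | succ k =>
        have hx' : x ∈ aug K N ^ (k + 1 + 1) := hx
        show D j x ∈ aug K N ^ (k + 1)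
        rw [pow_succ' (aug K N) (k + 1)] at hx'
        clear hx
        induction hx' using Submodule.mul_induction_on' with
        | mem_mul_mem u hu y hy =>
          rw [hD1 j u y hu]
          exact aug_pow_mul_left k _ _ hy
        | add x _ y _ ihx ihy =>
          rw [map_add]
          exact Submodule.add_mem _ ihx ihy
    have hDdown : ∀ (k : ℕ) (x : MonoidAlgebra K G), x ∈ Fil K N (k + 1) →
        DR N (D j) x ∈ Fil K N k := by
      intro k x hx
      apply exists_ot
      intro q
      rw [cp_DR]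
      exact hdown k _ (hx _)
    have h3 : DR N (D j) a ∉ Fil K N (m + 1) := by
      intro h
      apply hj
      have := h (ot N q)
      rwa [cp_DR] at this
    have h4 := ih n (DR N (D j) a) b (hDdown m a ha) h3 hb hb'
    apply h4
    rw [← DR_mul N (D j) (hD1 j) a b ha1]
    have e : m + 1 + n + 1 = (m + n + 1) + 1 := by omega
    rw [e] at hab
    exact hDdown _ _ hab

/-- Extension theorem for domains. -/
theorem ext_domain [NoZeroDivisors (MonoidAlgebra K (G ⧸ N))] (hF : FoxSys K N)
    (hN : ∀ a : MonoidAlgebra K N, (∀ n : ℕ, a ∈ aug K N ^ (n + 1)) → a = 0) :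
    NoZeroDivisors (MonoidAlgebra K G) := by
  classical
  have hres : ∀ a : MonoidAlgebra K G, (∀ n, a ∈ Fil K N (n + 1)) → a = 0 := by
    intro a ha
    ext g
    have h2 : cp N g a = 0 := hN _ (fun n => ha n g)
    have h3 := cp_coeff N g a 1
    rw [h2] at h3
    simpa using h3.symm
  have hdeg : ∀ a : MonoidAlgebra K G, a ≠ 0 → ∃ m, a ∈ Fil K N m ∧ a ∉ Fil K N (m + 1) := by
    intro a ha
    have h1 : ∃ n, a ∉ Fil K N (n + 1) := by
      by_contra hcon
      push Not at hcon
      exact ha (hres a hcon)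
    refine ⟨Nat.find h1, ?_, Nat.find_spec h1⟩
    cases hn : Nat.find h1 with
    | zero => exact Fil_zero N a
    | succ k =>
      have h2 := Nat.find_min h1 (m := k) (by omega)
      push Not at h2
      exact h2
  refine ⟨fun {a b} hab => ?_⟩
  by_contra hcon
  push Not at hcon
  obtain ⟨m, hm1, hm2⟩ := hdeg a hcon.1
  obtain ⟨n, hn1, hn2⟩ := hdeg b hcon.2
  apply main_step N hF m n a b hm1 hm2 hn1 hn2
  rw [hab]
  exact Submodule.zero_mem _

end thm

end Pool.Agent.H26R2.ZD
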