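import Mathlib
import Pool.Agent.H26R2.ZD.Main

set_option autoImplicit false

/-!
General extension theorem: normal subgroups whose graded augmentation algebra has injective
multiplication maps.
-/

namespace Pool.Agent.H26R2.ZD

universe u v w x y

open MonoidAlgebra Pool.Agent.H26R2.Idem

/-- The multiplication maps `gr_m ⊗ gr_n → gr_(m+n)` of the graded algebra of the filtration of
`K[G]` by the powers of the augmentation ideal are injective: an element `∑ u_i ⊗ v_i` of the
kernel is killed by all functionals on the second factor. -/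
def TensorInj (K : Type u) [CommRing K] (G : Type v) [Group G] : Prop :=
  ∀ (m n k : ℕ) (u v : Fin k → MonoidAlgebra K G),
    (∀ i, u i ∈ AP K G m) → (∀ i, v i ∈ AP K G n) → ∑ i, u i * v i ∈ AP K G (m + n + 1) →
    ∀ μ : MonoidAlgebra K G →ₗ[K] K, (∀ x ∈ AP K G (n + 1), μ x = 0) →
      ∑ i, μ (v i) • u i ∈ AP K G (m + 1)

section

variable {K : Type u} [CommRing K] {G : Type v} [Group G]

lemma sub_eps_mem (a : MonoidAlgebra K G) :
    a - (MonoidAlgebra.lift K K G (1 : G →* K) a) • 1 ∈ aug K G := by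
  have h1 : MonoidAlgebra.lift K K G (1 : G →* K) (1 : MonoidAlgebra K G) = 1 :=
    map_one (MonoidAlgebra.lift K K G (1 : G →* K))
  rw [mem_aug, map_sub, map_smul, h1, smul_eq_mul, mul_one, sub_self]

/-- Fox derivations give injectivity. -/
theorem tensorInj_of_foxSys (h : FoxSys K G) : TensorInj K G := by
  obtain ⟨J, D, hD1, hD2⟩ := h
  have hdown : ∀ (j : J) (k : ℕ) (x : MonoidAlgebra K G), x ∈ AP K G (k + 1) →
      D j x ∈ AP K G k := by
    intro j k x hx
    cases k with
    | zero => exact Submodule.mem_top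
    | succ k =>
      have hx' : x ∈ aug K G ^ (k + 1 + 1) := hx
      show D j x ∈ aug K G ^ (k + 1)
      rw [pow_succ' (aug K G) (k + 1)] at hx'
      clear hx
      induction hx' using Submodule.mul_induction_on' with
      | mem_mul_mem u hu y hy =>
        rw [hD1 j u y hu]
        exact aug_pow_mul_left k _ _ hy
      | add x _ y _ ihx ihy =>
        rw [map_add]
        exact Submodule.add_mem _ ihx ihy
  intro m
  induction m with
  | zero =>
    intro n k u v _ hv hs μ hμ
    rw [zero_add, AP_one, mem_aug, map_sum]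
    simp_rw [map_smul]
    have h1 : ∑ i, (MonoidAlgebra.lift K K G (1 : G →* K) (u i)) • v i ∈ AP K G (n + 1) := by
      have h2 : ∑ i, (MonoidAlgebra.lift K K G (1 : G →* K) (u i)) • v i =
          ∑ i, u i * v i -
          ∑ i, (u i - (MonoidAlgebra.lift K K G (1 : G →* K) (u i)) • 1) * v i := by
        rw [← Finset.sum_sub_distrib]
        refine Finset.sum_congr rfl (fun i _ => ?_)
        rw [sub_mul, smul_mul_assoc, one_mul]
        abel
      rw [h2]
      refine Submodule.sub_mem _ (by simpa using hs) (Submodule.sum_mem _ (fun i _ => ?_))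
      exact aug_mul_AP n _ _ (sub_eps_mem _) (hv i)
    have h3 := hμ _ h1
    rw [map_sum] at h3
    rw [← h3]
    refine Finset.sum_congr rfl (fun i _ => ?_)
    rw [map_smul, smul_eq_mul, smul_eq_mul, mul_comm]
  | succ m ih =>
    intro n k u v hu hv hs μ hμ
    apply hD2 (m + 1)
    · refine Submodule.sum_mem _ (fun i _ => Submodule.smul_mem _ _ (AP_le_aug m (hu i)))
    · intro j
      rw [map_sum]
      simp_rw [map_smul]
      apply ih n k (fun i => D j (u i)) v (fun i => hdown j m _ (hu i)) hv _ μ hμ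
      have h1 := hdown j (m + n + 1) (∑ i, u i * v i)
        (by rwa [show m + n + 1 + 1 = m + 1 + n + 1 by omega])
      rw [map_sum] at h1
      have h2 : ∀ i, D j (u i * v i) = D j (u i) * v i := fun i =>
        hD1 j _ _ (AP_le_aug m (hu i))
      simp_rw [h2] at h1
      exact h1

end

section mainthm

variable {K : Type u} [CommRing K] {G : Type v} [Group G] (N : Subgroup G) [N.Normal]

/-- decomposition into components -/
lemma decomp (a : MonoidAlgebra K G) : ∃ S0 : Finset (G ⧸ N), ∀ S : Finset (G ⧸ N), S0 ⊆ S →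
    ∑ q ∈ S, io N (cp N (ot N q) a) * single (ot N q) 1 = a := by
  classical
  induction a using MonoidAlgebra.induction_linear with
  | zero => exact ⟨∅, fun S _ => by simp⟩
  | add f g hf hg =>
    obtain ⟨S1, h1⟩ := hf
    obtain ⟨S2, h2⟩ := hg
    refine ⟨S1 ∪ S2, fun S hS => ?_⟩
    have e1 := h1 S (Finset.union_subset_left hS)
    have e2 := h2 S (Finset.union_subset_right hS)
    simp_rw [map_add, add_mul, Finset.sum_add_distrib]
    rw [e1, e2]
  | single g r =>
    refine ⟨{(g : G ⧸ N)}, fun S hS => ?_⟩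
    rw [Finset.sum_eq_single (g : G ⧸ N)]
    · conv_rhs => rw [single_eq N g r]
      rw [single_eq N g r, map_smul, cp_io, cp_ot_ot, mul_one, map_smul, smul_mul_assoc]
    · intro q _ hq
      rw [single_eq N g r, map_smul, cp_io, cp_ot_ne N q _ hq, mul_zero, smul_zero, map_zero,
        zero_mul]
    · intro h
      exact absurd (hS (Finset.mem_singleton_self _)) h

end mainthm

section thm

variable {K : Type u} [Field K] {G : Type v} [Group G] (N : Subgroup G) [N.Normal]

/-- sums over a finset as sums over `Fin` -/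
lemma tensorInj_finset (hT : TensorInj K N) {ι : Type w} (S : Finset ι) (m n : ℕ)
    (u v : ι → MonoidAlgebra K N)
    (hu : ∀ i, u i ∈ AP K N m) (hv : ∀ i, v i ∈ AP K N n)
    (hs : ∑ i ∈ S, u i * v i ∈ AP K N (m + n + 1))
    (μ : MonoidAlgebra K N →ₗ[K] K) (hμ : ∀ x ∈ AP K N (n + 1), μ x = 0) :
    ∑ i ∈ S, μ (v i) • u i ∈ AP K N (m + 1) := by
  have e : ∀ f : ι → MonoidAlgebra K N, ∑ i ∈ S, f i = ∑ i : Fin S.card, f (S.equivFin.symm i) := by
    intro f
    rw [← Finset.sum_coe_sort S f]
    exact (Equiv.sum_comp S.equivFin.symm (fun i : S => f i)).symm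
  rw [e] at hs ⊢
  exact hT m n S.card _ _ (fun i => hu _) (fun i => hv _) hs μ hμ

lemma main_step' [NoZeroDivisors (MonoidAlgebra K (G ⧸ N))] (hT : TensorInj K N) (m n : ℕ)
    (a b : MonoidAlgebra K G) (ha : a ∈ Fil K N m) (ha' : a ∉ Fil K N (m + 1))
    (hb : b ∈ Fil K N n) (hb' : b ∉ Fil K N (n + 1)) : a * b ∉ Fil K N (m + n + 1) := by
  classical
  intro hab
  -- the functional on the right
  rw [mem_Fil] at hb'
  push Not at hb'
  obtain ⟨g, hg⟩ := hb'
  have hg2 : cr N g b ∉ AP K N (n + 1) := fun h => hg (cr_AP' N g _ b h)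
  obtain ⟨l, hl1, hl2⟩ := Submodule.exists_le_ker_of_notMem hg2
  have hl : ∀ x ∈ AP K N (n + 1), l x = 0 := fun x hx => hl2 hx
  have h2 : Lam N l b ≠ 0 := by
    intro h0
    apply hl1
    rw [Lam_coeff' N n l hl b hb, h0]
    rfl
  -- the functional on the left
  have h1 : ∃ q, cp N (ot N q) a ∉ AP K N (m + 1) := by
    by_contra hcon
    push Not at hcon
    exact ha' (exists_ot N _ a hcon)
  obtain ⟨q0, hq0⟩ := h1
  obtain ⟨f, hf1, hf2⟩ := Submodule.exists_le_ker_of_notMem hq0
  have hf : ∀ x ∈ AP K N (m + 1), f x = 0 := fun x hx => hf2 hx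
  obtain ⟨S0, hS0⟩ := decomp N a
  set S := insert q0 S0 with hS
  have hdec := hS0 S (Finset.subset_insert _ _)
  have key : ∀ t : G ⧸ N, ∑ q ∈ S, (Lam N l b).coeff (q⁻¹ * t) • cp N (ot N q) a ∈
      AP K N (m + 1) := by
    intro t
    have h3 : ∑ q ∈ S, cp N (ot N q) a * cp N (ot N t) (single (ot N q) 1 * b) ∈
        AP K N (m + n + 1) := by
      have h4 := hab (ot N t)
      conv at h4 => rw [← hdec, Finset.sum_mul, map_sum]
      refine (congrArg (· ∈ AP K N (m + n + 1)) (Finset.sum_congr rfl (fun q _ => ?_))).mp h4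
      rw [mul_assoc, cp_io]
    have h5 := tensorInj_finset N hT S m n (fun q => cp N (ot N q) a)
      (fun q => cp N (ot N t) (single (ot N q) 1 * b)) (fun q => ha _)
      (fun q => by
        show cp N (ot N t) (single (ot N q) 1 * b) ∈ _
        rw [cp_single_conj]
        exact cjL_AP N _ n _ (hb _)) h3 (l ∘ₗ (cjL N (ot N t)⁻¹).toLinearMap)
      (fun x hx => hl _ (cjL_AP N _ _ _ hx))
    refine (congrArg (· ∈ AP K N (m + 1)) (Finset.sum_congr rfl (fun q _ => ?_))).mp h5
    congr 1
    show l (cr N (ot N t) (single (ot N q) 1 * b)) = _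
    rw [cr_single_mul, Lam_coeff' N n l hl b hb, QuotientGroup.mk_mul, QuotientGroup.mk_inv,
      ot_mk, ot_mk]
  set al : MonoidAlgebra K (G ⧸ N) := ∑ q ∈ S, single q (f (cp N (ot N q) a)) with hal
  have h6 : al ≠ 0 := by
    intro h0
    apply hf1
    have h7 := congrArg (fun z => MonoidAlgebra.coeff z q0) h0
    simp only [hal, coeff_sum, Finsupp.finsetSum_apply, coeff_single, coeff_zero,
      Finsupp.coe_zero, Pi.zero_apply] at h7
    rw [Finset.sum_eq_single q0] at h7
    · rwa [Finsupp.single_eq_same] at h7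
    · intro q _ hq
      exact Finsupp.single_eq_of_ne (Ne.symm hq)
    · intro h
      exact absurd (Finset.mem_insert_self _ _) h
  have h8 : al * Lam N l b = 0 := by
    ext t
    rw [hal, Finset.sum_mul, coeff_sum, Finsupp.finsetSum_apply]
    simp_rw [coeff_single_mul']
    have h9 := hf _ (key t)
    rw [map_sum] at h9
    simp_rw [map_smul, smul_eq_mul] at h9
    have h10 : ∑ q ∈ S, f (cp N (ot N q) a) * (Lam N l b).coeff (q⁻¹ * t) = 0 := by
      rw [← h9]
      exact Finset.sum_congr rfl (fun q _ => mul_comm _ _)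
    rw [h10]
    rfl
  exact mul_ne_zero h6 h2 h8

/-- General extension theorem for domains. -/
theorem ext_domain' [NoZeroDivisors (MonoidAlgebra K (G ⧸ N))] (hT : TensorInj K N)
    (hN : ∀ a : MonoidAlgebra K N, (∀ n : ℕ, a ∈ aug K N ^ (n + 1)) → a = 0) :
    NoZeroDivisors (MonoidAlgebra K G) := by
  classical
  have hres : ∀ a : MonoidAlgebra K G, (∀ n, a ∈ Fil K N (n + 1)) → a = 0 := by
    intro a ha
    ext g
    have h2 : cp N g a = 0 := hN _ (fun n => ha n g)
    have h3 := cp_coeff N g a 1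
    rw [h2] at h3
    simpa using h3.symm
  have hdeg : ∀ a : MonoidAlgebra K G, a ≠ 0 → ∃ m, a ∈ Fil K N m ∧ a ∉ Fil K N (m + 1) := by
    intro a ha
    have h1 : ∃ n, a ∉ Fil K N (n + 1) := by
      by_contra hcon
      push Not at hcon
      exact ha (hres a hcon)
    refine ⟨Nat.find h1, ?_, Nat.find_spec h1⟩
    cases hn : Nat.find h1 with
    | zero => exact Fil_zero N a
    | succ k =>
      have h2 := Nat.find_min h1 (m := k) (by omega)
      push Not at h2
      exact h2
  refine ⟨fun {a b} hab => ?_⟩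
  by_contra hcon
  push Not at hcon
  obtain ⟨m, hm1, hm2⟩ := hdeg a hcon.1
  obtain ⟨n, hn1, hn2⟩ := hdeg b hcon.2
  apply main_step' N hT m n a b hm1 hm2 hn1 hn2
  rw [hab]
  exact Submodule.zero_mem _

end thm

section transfer

variable {K : Type u} [CommRing K] {F : Type v} [Group F] {G : Type w} [Group G]

/-- the induced map of group algebras -/
noncomputable def mapB (K : Type u) [CommRing K] (f : F →* G) :
    MonoidAlgebra K F →ₐ[K] MonoidAlgebra K G :=
  MonoidAlgebra.lift K (MonoidAlgebra K G) F ((MonoidAlgebra.of K G).comp f)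

lemma mapB_single (f : F →* G) (g : F) (r : K) : mapB K f (single g r) = single (f g) r := by
  unfold mapB
  rw [lift_single]
  simp

lemma mapB_aug (f : F →* G) (x : MonoidAlgebra K F) :
    MonoidAlgebra.lift K K G (1 : G →* K) (mapB K f x) =
      MonoidAlgebra.lift K K F (1 : F →* K) x := by
  induction x using MonoidAlgebra.induction_linear with
  | zero => simp
  | add f g hf hg => rw [map_add, map_add, map_add, hf, hg]
  | single x r => rw [mapB_single, lift_single, lift_single]; rfl

lemma mapB_AP (f : F →* G) (n : ℕ) (x : MonoidAlgebra K F) (hx : x ∈ AP K F n) :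
    mapB K f x ∈ AP K G n := by
  cases n with
  | zero => exact Submodule.mem_top
  | succ n =>
    have haug : (aug K F).map (mapB K f).toLinearMap ≤ aug K G := by
      rintro _ ⟨x, hx, rfl⟩
      exact (mapB_aug f x).trans hx
    have h1 : (aug K F ^ (n + 1)).map (mapB K f).toLinearMap ≤ aug K G ^ (n + 1) := by
      rw [Submodule.map_pow]
      exact pow_le_pow_left' haug _
    exact h1 ⟨x, hx, rfl⟩

lemma AP_anti {m n : ℕ} (h : m ≤ n) : AP K G n ≤ AP K G m := by
  induction h with
  | refl => exact le_rfl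
  | step _ ih => exact (AP_succ_le _).trans ih

lemma AP_mul (m n : ℕ) (x y : MonoidAlgebra K G) (hx : x ∈ AP K G m) (hy : y ∈ AP K G n) :
    x * y ∈ AP K G (m + n) := by
  induction m generalizing x with
  | zero => rw [zero_add]; exact AP_mul_left n _ _ hy
  | succ m ih =>
    have hx' : x ∈ aug K G ^ (m + 1) := hx
    rw [pow_succ' (aug K G) m] at hx'
    clear hx
    induction hx' using Submodule.mul_induction_on' with
    | mem_mul_mem u hu z hz =>
      rw [mul_assoc, show m + 1 + n = (m + n) + 1 by omega]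
      apply aug_mul_AP _ _ _ hu
      cases m with
      | zero => rw [zero_add]; exact AP_mul_left n _ _ hy
      | succ m => exact ih z hz
    | add x _ y _ ihx ihy =>
      rw [add_mul]
      exact Submodule.add_mem _ ihx ihy

/-- The homomorphism `f : F → G` induces isomorphisms `K[F]/Δ(F)^n → K[G]/Δ(G)^n`. -/
def AugIso (K : Type u) [CommRing K] (f : F →* G) : Prop :=
  (∀ (n : ℕ) (x : MonoidAlgebra K G), ∃ z : MonoidAlgebra K F, x - mapB K f z ∈ AP K G n) ∧
  (∀ (n : ℕ) (z : MonoidAlgebra K F), mapB K f z ∈ AP K G n → z ∈ AP K F n)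

/-- Transfer along homomorphisms inducing isomorphisms of the truncated group algebras. -/
theorem tensorInj_of_augIso (f : F →* G) (hf : AugIso K f) (hT : TensorInj K F) :
    TensorInj K G := by
  intro m n k u v hu hv hs μ hμ
  choose y hy using fun i => hf.1 (m + n + 1) (u i)
  choose z hz using fun i => hf.1 (m + n + 1) (v i)
  have hyu : ∀ i, mapB K f (y i) ∈ AP K G m := by
    intro i
    have h1 := Submodule.sub_mem _ (hu i) (AP_anti (by omega : m ≤ m + n + 1) (hy i))
    rwa [sub_sub_cancel] at h1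
  have hzv : ∀ i, mapB K f (z i) ∈ AP K G n := by
    intro i
    have h1 := Submodule.sub_mem _ (hv i) (AP_anti (by omega : n ≤ m + n + 1) (hz i))
    rwa [sub_sub_cancel] at h1
  have h1 : ∑ i, y i * z i ∈ AP K F (m + n + 1) := by
    apply hf.2
    rw [map_sum]
    have h2 : ∑ i, mapB K f (y i * z i) = ∑ i, u i * v i -
        ∑ i, ((u i - mapB K f (y i)) * v i + mapB K f (y i) * (v i - mapB K f (z i))) := by
      rw [← Finset.sum_sub_distrib]
      refine Finset.sum_congr rfl (fun i _ => ?_)
      rw [map_mul]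
      noncomm_ring
    rw [h2]
    refine Submodule.sub_mem _ hs (Submodule.sum_mem _ (fun i _ => Submodule.add_mem _ ?_ ?_))
    · exact AP_mul_right _ _ _ (hy i)
    · exact AP_mul_left _ _ _ (hz i)
  have h3 := hT m n k y z (fun i => hf.2 _ _ (hyu i)) (fun i => hf.2 _ _ (hzv i)) h1
    (μ ∘ₗ (mapB K f).toLinearMap) (fun x hx => hμ _ (mapB_AP f _ x hx))
  have h4 := mapB_AP f _ _ h3
  have h5 : ∑ i, μ (v i) • u i = mapB K f (∑ i, (μ ∘ₗ (mapB K f).toLinearMap) (z i) • y i) +
      ∑ i, μ (v i) • (u i - mapB K f (y i)) := by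
    rw [map_sum, ← Finset.sum_add_distrib]
    refine Finset.sum_congr rfl (fun i _ => ?_)
    have h6 : μ (mapB K f (z i)) = μ (v i) := by
      have h7 := hμ _ (AP_anti (by omega : n + 1 ≤ m + n + 1) (hz i))
      rw [map_sub, sub_eq_zero] at h7
      exact h7.symm
    rw [map_smul]
    show _ = μ (mapB K f (z i)) • mapB K f (y i) + _
    rw [h6, smul_sub]
    abel
  rw [h5]
  exact Submodule.add_mem _ h4 (Submodule.sum_mem _ (fun i _ =>
    Submodule.smul_mem _ _ (AP_anti (by omega : m + 1 ≤ m + n + 1) (hy i))))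

end transfer

section loc

variable {K : Type u} [CommRing K] {G : Type v} [Group G]

lemma io_inj (H : Subgroup G) : Function.Injective (io (K := K) H) := by
  have h : ∀ x, io (K := K) H x = mapDomainRingHom K H.subtype x := by
    intro x
    induction x using MonoidAlgebra.induction_linear with
    | zero => simp
    | add f g hf hg => rw [map_add, map_add, hf, hg]
    | single n r => rw [io_single]; simp
  intro x y hxy
  rw [h, h] at hxy
  exact mapDomain_injective H.subtype_injective hxy

lemma io_aug (H : Subgroup G) (x : MonoidAlgebra K H) :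
    MonoidAlgebra.lift K K G (1 : G →* K) (io H x) = MonoidAlgebra.lift K K H (1 : H →* K) x :=
  mapB_aug H.subtype x

lemma io_AP (H : Subgroup G) (n : ℕ) (x : MonoidAlgebra K H) (hx : x ∈ AP K H n) :
    io H x ∈ AP K G n := mapB_AP H.subtype n x hx

lemma exists_io (x : MonoidAlgebra K G) : ∃ T : Finset G, ∀ H : Subgroup G, (T : Set G) ⊆ H →
    ∃ z : MonoidAlgebra K H, io H z = x := by
  classical
  induction x using MonoidAlgebra.induction_linear with
  | zero => exact ⟨∅, fun H _ => ⟨0, map_zero _⟩⟩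
  | add f g hf hg =>
    obtain ⟨T1, h1⟩ := hf
    obtain ⟨T2, h2⟩ := hg
    refine ⟨T1 ∪ T2, fun H hH => ?_⟩
    rw [Finset.coe_union, Set.union_subset_iff] at hH
    obtain ⟨z1, e1⟩ := h1 H hH.1
    obtain ⟨z2, e2⟩ := h2 H hH.2
    exact ⟨z1 + z2, by rw [map_add, e1, e2]⟩
  | single g r =>
    refine ⟨{g}, fun H hH => ⟨single ⟨g, hH (by simp)⟩ r, ?_⟩⟩
    rw [io_single]

lemma exists_io_AP (n : ℕ) : ∀ x : MonoidAlgebra K G, x ∈ AP K G n →
    ∃ T : Finset G, ∀ H : Subgroup G, (T : Set G) ⊆ H → ∃ z ∈ AP K H n, io H z = x := by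
  classical
  induction n with
  | zero =>
    intro x _
    obtain ⟨T, hT⟩ := exists_io x
    exact ⟨T, fun H hH => by
      obtain ⟨z, hz⟩ := hT H hH
      exact ⟨z, Submodule.mem_top, hz⟩⟩
  | succ n ih =>
    intro x hx
    have haug : ∀ x ∈ aug K G, ∃ T : Finset G, ∀ H : Subgroup G, (T : Set G) ⊆ H →
        ∃ z ∈ aug K H, io H z = x := by
      intro x hx
      obtain ⟨T, hT⟩ := exists_io x
      refine ⟨T, fun H hH => ?_⟩
      obtain ⟨z, hz⟩ := hT H hH
      refine ⟨z, ?_, hz⟩
      rw [mem_aug, ← io_aug, hz]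
      exact hx
    have hx' : x ∈ aug K G ^ (n + 1) := hx
    rw [pow_succ' (aug K G) n] at hx'
    clear hx
    induction hx' using Submodule.mul_induction_on' with
    | mem_mul_mem u hu y hy =>
      obtain ⟨T1, h1⟩ := haug u hu
      have hy' : ∃ T : Finset G, ∀ H : Subgroup G, (T : Set G) ⊆ H →
          ∃ z ∈ AP K H n, io H z = y := by
        cases n with
        | zero =>
          obtain ⟨T, hT⟩ := exists_io y
          exact ⟨T, fun H hH => by
            obtain ⟨z, hz⟩ := hT H hH
            exact ⟨z, Submodule.mem_top, hz⟩⟩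
        | succ n => exact ih y hy
      obtain ⟨T2, h2⟩ := hy'
      refine ⟨T1 ∪ T2, fun H hH => ?_⟩
      rw [Finset.coe_union, Set.union_subset_iff] at hH
      obtain ⟨z1, m1, e1⟩ := h1 H hH.1
      obtain ⟨z2, m2, e2⟩ := h2 H hH.2
      exact ⟨z1 * z2, aug_mul_AP n _ _ m1 m2, by rw [map_mul, e1, e2]⟩
    | add x _ y _ hx hy =>
      obtain ⟨T1, h1⟩ := hx
      obtain ⟨T2, h2⟩ := hy
      refine ⟨T1 ∪ T2, fun H hH => ?_⟩
      rw [Finset.coe_union, Set.union_subset_iff] at hH
      obtain ⟨z1, m1, e1⟩ := h1 H hH.1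
      obtain ⟨z2, m2, e2⟩ := h2 H hH.2
      exact ⟨z1 + z2, Submodule.add_mem _ m1 m2, by rw [map_add, e1, e2]⟩

/-- The property is local. -/
theorem tensorInj_of_local (h : ∀ H : Subgroup G, H.FG → TensorInj K H) : TensorInj K G := by
  classical
  intro m n k u v hu hv hs μ hμ
  choose T1 h1 using fun i => exists_io_AP m (u i) (hu i)
  choose T2 h2 using fun i => exists_io_AP n (v i) (hv i)
  obtain ⟨T3, h3⟩ := exists_io_AP (m + n + 1) _ hs
  set T : Finset G := (Finset.univ.biUnion T1) ∪ (Finset.univ.biUnion T2) ∪ T3 with hTdef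
  set H : Subgroup G := Subgroup.closure (T : Set G) with hH
  have hTH : (T : Set G) ⊆ H := Subgroup.subset_closure
  have hT1 : ∀ i, (T1 i : Set G) ⊆ H := fun i x hx => hTH (by
    rw [Finset.mem_coe, hTdef, Finset.mem_union, Finset.mem_union]
    exact Or.inl (Or.inl (Finset.mem_biUnion.2 ⟨i, Finset.mem_univ _, hx⟩)))
  have hT2 : ∀ i, (T2 i : Set G) ⊆ H := fun i x hx => hTH (by
    rw [Finset.mem_coe, hTdef, Finset.mem_union, Finset.mem_union]
    exact Or.inl (Or.inr (Finset.mem_biUnion.2 ⟨i, Finset.mem_univ _, hx⟩)))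
  have hT3 : (T3 : Set G) ⊆ H := fun x hx => hTH (by
    rw [Finset.mem_coe, hTdef, Finset.mem_union]
    exact Or.inr hx)
  choose y hy1 hy2 using fun i => h1 i H (hT1 i)
  choose z hz1 hz2 using fun i => h2 i H (hT2 i)
  obtain ⟨w, hw1, hw2⟩ := h3 H hT3
  have e1 : ∑ i, y i * z i = w := by
    apply io_inj H
    rw [hw2, map_sum]
    exact Finset.sum_congr rfl (fun i _ => by rw [map_mul, hy2, hz2])
  have h4 := h H ⟨T, rfl⟩ m n k y z hy1 hz1 (e1 ▸ hw1) (μ ∘ₗ (io H).toLinearMap)
    (fun x hx => hμ _ (io_AP H _ x hx))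
  have h5 := io_AP H _ _ h4
  rw [map_sum] at h5
  refine (congrArg (· ∈ AP K G (m + 1)) (Finset.sum_congr rfl (fun i _ => ?_))).mp h5
  rw [map_smul, hy2]
  show μ (io H (z i)) • _ = _
  rw [hz2]

end loc

end Pool.Agent.H26R2.ZD
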