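import Mathlib
import Pool.Agent.H26R2.ZD.Gen
import Pool.Agent.H26R2.Idem.Chain

set_option autoImplicit false

/-! Closure properties of the class of groups whose group algebra is a domain. -/

namespace Pool.Agent.H26R2.ZD

universe u v w x y

open MonoidAlgebra Pool.Agent.H26R2.Idem

/-- The group algebra `K[G]` has no zero divisors. -/
def Dom (K : Type u) [Field K] (G : Type v) [Group G] : Prop :=
  ∀ a b : MonoidAlgebra K G, a * b = 0 → a = 0 ∨ b = 0

section

variable {K : Type u} [Field K] {G : Type v} [Group G]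

theorem dom_of_inj {Q : Type w} [Group Q] (f : G →* Q) (hf : Function.Injective f)
    (hQ : Dom K Q) : Dom K G := by
  intro a b hab
  have hinj : Function.Injective (mapDomainRingHom K f) := mapDomain_injective hf
  have h1 : mapDomainRingHom K f a * mapDomainRingHom K f b = 0 := by
    rw [← map_mul, hab, map_zero]
  rcases hQ _ _ h1 with h | h
  · left
    apply hinj
    rw [h, map_zero]
  · right
    apply hinj
    rw [h, map_zero]

/-- General extension theorem. -/
theorem dom_ext' (N : Subgroup G) [N.Normal] (hT : TensorInj K N) (hN : ResNilpAug K N)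
    (hQ : Dom K (G ⧸ N)) : Dom K G := by
  have : NoZeroDivisors (MonoidAlgebra K (G ⧸ N)) := ⟨fun {a b} h => hQ a b h⟩
  have h1 : NoZeroDivisors (MonoidAlgebra K G) := ext_domain' N hT hN
  intro a b hab
  exact mul_eq_zero.1 hab

/-- Normal subgroups with free kernel. -/
theorem dom_ext (N : Subgroup G) [N.Normal] [IsFreeGroup N] (hQ : Dom K (G ⧸ N)) : Dom K G := by
  have : NoZeroDivisors (MonoidAlgebra K (G ⧸ N)) := ⟨fun {a b} h => hQ a b h⟩
  have h1 : NoZeroDivisors (MonoidAlgebra K G) :=
    ext_domain N (foxSys_isFree K N) (res_of_equiv K (IsFreeGroup.toFreeGroup N) (free_res K))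
  intro a b hab
  exact mul_eq_zero.1 hab

theorem dom_of_free_ker {Q : Type w} [Group Q] (f : G →* Q) (hf : IsFreeGroup f.ker)
    (hQ : Dom K Q) : Dom K G :=
  dom_ext f.ker (dom_of_inj (QuotientGroup.kerLift f) (QuotientGroup.kerLift_injective f) hQ)

/-- Residual closure. -/
theorem dom_of_resid {ι : Type w} [Nonempty ι] (N : ι → Subgroup G) [∀ i, (N i).Normal]
    (hdir : ∀ i j, ∃ k, N k ≤ N i ∧ N k ≤ N j) (hN : ∀ g : G, (∀ i, g ∈ N i) → g = 1)
    (hQ : ∀ i, Dom K (G ⧸ N i)) : Dom K G := by
  classical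
  have hsep : ∀ S : Finset G, ∃ i, ∀ s ∈ S, s ∈ N i → s = 1 := by
    intro S
    induction S using Finset.induction_on with
    | empty => exact ⟨Classical.arbitrary ι, by simp⟩
    | insert a S _ ih =>
      obtain ⟨i, hi⟩ := ih
      by_cases ha : a = 1
      · refine ⟨i, fun s hs hsi => ?_⟩
        rcases Finset.mem_insert.1 hs with rfl | hs
        · exact ha
        · exact hi s hs hsi
      · have : ∃ j, a ∉ N j := by
          by_contra hcon
          push Not at hcon
          exact ha (hN a hcon)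
        obtain ⟨j, hj⟩ := this
        obtain ⟨k, hk1, hk2⟩ := hdir i j
        refine ⟨k, fun s hs hsk => ?_⟩
        rcases Finset.mem_insert.1 hs with rfl | hs
        · exact absurd (hk2 hsk) hj
        · exact hi s hs (hk1 hsk)
  have hinj : ∀ e : MonoidAlgebra K G, e ≠ 0 → ∃ i, ∀ k, N k ≤ N i →
      mapDomainRingHom K (QuotientGroup.mk' (N k)) e ≠ 0 := by
    intro e he
    obtain ⟨i, hi⟩ := hsep ((e.coeff.support ×ˢ e.coeff.support).image (fun p => p.1⁻¹ * p.2))
    refine ⟨i, fun k hk h0 => he ?_⟩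
    have hio : Set.InjOn (QuotientGroup.mk' (N k)) (e.coeff.support : Set G) := by
      intro x hx y hy hxy
      have h1 : x⁻¹ * y ∈ N k := QuotientGroup.eq.1 hxy
      have h2 := hi (x⁻¹ * y) (Finset.mem_image.2 ⟨(x, y), Finset.mem_product.2 ⟨hx, hy⟩, rfl⟩)
        (hk h1)
      exact (inv_mul_eq_one.1 h2)
    have h1 : Finsupp.mapDomain (QuotientGroup.mk' (N k)) e.coeff = 0 := by
      have := congrArg MonoidAlgebra.coeff h0
      exact this
    have h2 : e.coeff = 0 := by
      ext g
      by_cases hg : g ∈ e.coeff.support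
      · have h3 := Finsupp.mapDomain_apply' (S := (e.coeff.support : Set G)) e.coeff
          (f := QuotientGroup.mk' (N k)) (by exact subset_rfl) hio (a := g) hg
        rw [h1] at h3
        exact h3.symm
      · simpa using hg
    exact coeff_eq_zero.1 h2
  intro a b hab
  by_contra hcon
  push Not at hcon
  obtain ⟨i, hi⟩ := hinj a hcon.1
  obtain ⟨j, hj⟩ := hinj b hcon.2
  obtain ⟨k, hki, hkj⟩ := hdir i j
  have h2 : mapDomainRingHom K (QuotientGroup.mk' (N k)) a *
      mapDomainRingHom K (QuotientGroup.mk' (N k)) b = 0 := by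
    rw [← map_mul, hab, map_zero]
  rcases hQ k _ _ h2 with h | h
  · exact hi k hki h
  · exact hj k hkj h

/-- Descending chains, general version. -/
theorem dom_chain' (N : ℕ → Subgroup G) [∀ i, (N i).Normal] (hanti : Antitone N)
    (hinf : ∀ g, (∀ i, g ∈ N i) → g = 1)
    (hT : ∀ i, TensorInj K ((N i).map (QuotientGroup.mk' (N (i + 1)))))
    (hN : ∀ i, ResNilpAug K ((N i).map (QuotientGroup.mk' (N (i + 1)))))
    (h0 : Dom K (G ⧸ N 0)) : Dom K G := by
  have hall : ∀ i, Dom K (G ⧸ N i) := by
    intro i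
    induction i with
    | zero => exact h0
    | succ i ih =>
      have e : (G ⧸ N (i + 1)) ⧸ (N i).map (QuotientGroup.mk' (N (i + 1))) ≃* G ⧸ N i :=
        QuotientGroup.quotientQuotientEquivQuotient (N (i + 1)) (N i) (hanti (Nat.le_succ i))
      exact dom_ext' _ (hT i) (hN i) (dom_of_inj e.toMonoidHom e.injective ih)
  exact dom_of_resid N (fun i j => ⟨max i j, hanti (le_max_left _ _), hanti (le_max_right _ _)⟩)
    hinf hall

/-- Descending chains. -/
theorem dom_chain (N : ℕ → Subgroup G) [∀ i, (N i).Normal] (hanti : Antitone N)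
    (hinf : ∀ g, (∀ i, g ∈ N i) → g = 1)
    (hN : ∀ i, IsFreeGroup ((N i).map (QuotientGroup.mk' (N (i + 1)))))
    (h0 : Dom K (G ⧸ N 0)) : Dom K G := by
  have hall : ∀ i, Dom K (G ⧸ N i) := by
    intro i
    induction i with
    | zero => exact h0
    | succ i ih =>
      have e : (G ⧸ N (i + 1)) ⧸ (N i).map (QuotientGroup.mk' (N (i + 1))) ≃* G ⧸ N i :=
        QuotientGroup.quotientQuotientEquivQuotient (N (i + 1)) (N i) (hanti (Nat.le_succ i))
      have := hN i
      exact dom_ext _ (dom_of_inj e.toMonoidHom e.injective ih)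
  exact dom_of_resid N (fun i j => ⟨max i j, hanti (le_max_left _ _), hanti (le_max_right _ _)⟩)
    hinf hall

end

theorem WW_dom (K : Type u) [Field K] {Q : Type v} {Y : Type w} [Group Q] [MulAction Q Y]
    (hQ : Dom K Q) : Dom K (WW Q Y) := by
  refine dom_of_free_ker (SemidirectProduct.rightHom : WW Q Y →* Q) ?_ hQ
  have e : FreeGroup Y ≃* (SemidirectProduct.rightHom : WW Q Y →* Q).ker :=
    (MonoidHom.ofInjective (f := (SemidirectProduct.inl : FreeGroup Y →* WW Q Y))
      SemidirectProduct.inl_injective).trans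
      (MulEquiv.subgroupCongr SemidirectProduct.range_inl_eq_ker_rightHom)
  exact IsFreeGroup.ofMulEquiv e

/-- Amalgamated free products with a homomorphism which is injective on the vertex groups. -/
theorem amalgam_dom (K : Type u) [Field K] {ι : Type v} {G : ι → Type w} {H : Type x} {Q : Type y}
    [∀ i, Group (G i)] [Group H] [Group Q] {φ : ∀ i, H →* G i} [Nonempty ι]
    (hφ : ∀ i, Function.Injective (φ i))
    (f : ∀ i, G i →* Q) (hf : ∀ i, Function.Injective (f i))
    (hfk : ∀ i j, (f i).comp (φ i) = (f j).comp (φ j)) (hQ : Dom K Q) :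
    Dom K (Monoid.PushoutI φ) := by
  obtain ⟨i0⟩ := ‹Nonempty ι›
  have : Nonempty ι := ⟨i0⟩
  exact dom_of_inj (Phi ((f i0).comp (φ i0)) f (fun i => hfk i i0))
    (Phi_injective hφ _ f hf (fun i => hfk i i0)) (WW_dom K hQ)

/-- HNN extensions with a homomorphism which is injective on the base group. -/
theorem hnn_dom (K : Type u) [Field K] {G : Type v} {Q : Type w} [Group G] [Group Q]
    {A B : Subgroup G} {φ : A ≃* B} (f : G →* Q) (hf : Function.Injective f) (x : Q)
    (hx : ∀ a : A, x * f a = f (φ a : G) * x) (hQ : Dom K Q) :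
    Dom K (HNNExtension G A B φ) :=
  dom_of_inj (Psi f x hx) (Psi_injective f hf x hx) (WW_dom K hQ)

end Pool.Agent.H26R2.ZD
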